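import Mathlib
import Pool.Agent.H.MP_6e75db_lc.A

set_option autoImplicit false

namespace Pool.Agent.H.MP_c8ce56_lc

open Set Filter Function Cardinal Order Equiv Pool.Agent.H.MP_77d395_lc Pool.Agent.H.MP_6e75db_lc

/-- eventually macro-uniform functions for the ballean of countable subsets -/
def Emu {G : Type} [Group G] (f : G → ℝ) : Prop := ∀ F : Set G, F.Countable →
  ∃ B : Set G, B.Countable ∧ ∃ M, ∀ x ∉ B, ∀ g ∈ F, ∀ h ∈ F, |f (g * x) - f (h * x)| ≤ M

/-- emu-boundedness of the ballean of countable subsets -/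
def EB (G : Type) [Group G] : Prop := ∀ f : G → ℝ, Emu f →
  ∃ B : Set G, B.Countable ∧ ∃ M, ∀ x ∉ B, |f x| ≤ M

theorem ch {G : Type} [Group G] (hG : #G = ℵ₁) : ¬ EB G := fun H => by
  obtain ⟨e⟩ := Cardinal.eq.1 (mkI.trans hG.symm)
  let K : I → Subgroup G := fun γ => .closure (e '' Iic γ)
  have k1 : ∀ γ, (K γ : Set G).Countable := fun γ => by
    have := ((cI γ).image e).to_subtype
    simp only [K, FreeGroup.closure_eq_range, MonoidHom.coe_range]
    exact countable_range _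
  have k2 : Monotone K := fun a b l => Subgroup.closure_mono (image_mono (Iic_subset_Iic.2 l))
  have k3 : ∀ x γ, e.symm x ≤ γ → x ∈ K γ := fun x γ l =>
    Subgroup.subset_closure ⟨_, l, e.apply_symm_apply x⟩
  let σ : G → Set I := fun x => {γ | x ∈ K γ}
  have u : ¬ (range σ).Countable := fun c => (le_aleph0_iff_set_countable.2
    (show (Set.univ : Set G).Countable from (c.biUnion (t := fun s _ => σ ⁻¹' {s}) fun _ ⟨x, p⟩ =>
      (k1 (e.symm x)).mono fun y q => (q.trans p.symm).ge (k3 x _ le_rfl)).mono fun x _ =>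
        mem_iUnion₂.2 ⟨σ x, mem_range_self x, rfl⟩)).not_gt (by simp [hG])
  have : Uncountable (range σ) := not_countable_iff.1 u
  obtain ⟨θ⟩ := Cardinal.eq.1 (show #(range σ) = #(range σ × ℕ) by simp)
  obtain ⟨B, b, M, hM⟩ := H (fun x => (θ ⟨σ x, x, rfl⟩).2) fun F c => by
    obtain ⟨γ, hγ⟩ := bd (c.image e.symm)
    have : ∀ x ∉ K γ, ∀ g ∈ F, σ (g * x) = σ x := fun x n g p => ext fun δ => by
      have q := fun δ l => k3 g δ ((hγ _ ⟨g, p, rfl⟩).le.trans l)
      rcases le_total γ δ with l | l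
      · exact mul_mem_cancel_left (q δ l)
      exact iff_of_false (fun c => n ((mul_mem_cancel_left (q γ le_rfl)).1 (k2 l c))) fun c =>
        n (k2 l c)
    exact ⟨_, k1 γ, 0, fun x n g p h q => by simp only [this x n g p, this x n h q]; simp⟩
  obtain ⟨k, hk⟩ := exists_nat_gt M
  obtain ⟨r, hr⟩ := (ne_univ_iff_exists_notMem ((fun x => (θ ⟨σ x, x, rfl⟩).1) '' B)).1 fun c =>
    not_countable_univ (c ▸ b.image _)
  obtain ⟨⟨_, x, rfl⟩, p⟩ := θ.surjective (r, k)
  exact hk.not_ge (by simpa [p] using hM x fun c => hr ⟨x, c, congrArg Prod.fst p⟩)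

theorem sh {T U : Set ℕ} (a : T.Infinite) (b : Uᶜ.Infinite) :
    ∃ V ⊆ T, V.Infinite ∧ (V ∪ U)ᶜ.Infinite := by
  by_cases c : (T \ U).Infinite
  · let e := fun n => (c.natEmbedding _ n).1
    have i : Injective e := Subtype.val_injective.comp (c.natEmbedding _).injective
    refine ⟨range fun n => e (2 * n), fun _ ⟨n, p⟩ => p ▸ (c.natEmbedding _ _).2.1,
      infinite_range_of_injective (i.comp fun _ _ => by omega), (infinite_range_of_injective
        (f := fun n => e (2 * n + 1)) (i.comp fun _ _ => by omega)).mono ?_⟩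
    rintro _ ⟨n, rfl⟩ (⟨m, p⟩ | p)
    · exact absurd (i p) (by omega)
    exact (c.natEmbedding _ _).2.2 p
  exact ⟨T ∩ U, inter_subset_left, fun f => a ((f.union (not_infinite.1 c)).subset
    (inter_union_sdiff T U).ge), by rwa [union_eq_right.2 inter_subset_right]⟩

def Fix (T : Set ℕ) : Set (Perm ℕ) := {y | ∀ x ∈ T, y x = x}

theorem big {T : Set ℕ} (a : Tᶜ.Infinite) : 𝔠 ≤ #(Fix T) := by
  let ι := (a.natEmbedding _).trans (Embedding.subtype _)
  exact (show 𝔠 = #(Perm ℕ) by simp [mk_perm_eq_two_power]).trans_le (mk_le_of_injective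
    (f := fun e => ⟨e.viaEmbedding ι, fun x p => e.viaEmbedding_apply_of_notMem ι x fun ⟨n, q⟩ =>
      (a.natEmbedding _ n).2 (q ▸ p :)⟩) fun _ _ c => Perm.viaEmbeddingHom_injective ι
        (congrArg Subtype.val c))

open Classical in
theorem dec (b : Perm ℕ) : ∃ T V : Set ℕ, T.Infinite ∧ V.Infinite ∧ ∃ y ∈ Fix V, y * b ∈ Fix T := by
  obtain ⟨T, -, t1, t2⟩ := sh (U := ∅) infinite_univ (by simpa using infinite_univ)
  obtain ⟨S, s1, s2, s3⟩ := sh (t1.image b.injective.injOn) t2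
  obtain ⟨V, v1, v2, v3⟩ := sh s3 s3
  have s4 : ∀ x ∈ S, b.symm x ∈ T := fun x p => by
    obtain ⟨y, q, rfl⟩ := s1 p
    simpa using q
  let f : ↥(V ∪ S) ↪ ℕ := ⟨fun x => if x.1 ∈ V then x else b.symm x, fun x y e => by
    have := fun x y : ↥(V ∪ S) => fun p (q : y.1 ∉ V) (e : x.1 = b.symm y) =>
      v1 p (.inr (.inl (e ▸ s4 _ (y.2.resolve_left q))))
    dsimp only at e
    split_ifs at e with p q q
    exacts [Subtype.ext e, (this x y p q e).elim, (this y x q p e.symm).elim,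
      Subtype.ext (b.symm.injective e)]⟩
  have := (v3.mono (compl_subset_compl.2 (union_subset_union_right V subset_union_left))).to_subtype
  have : Infinite ↥(range f)ᶜ := (v3.mono (compl_subset_compl.2 fun _ c => by
    obtain ⟨x, p⟩ := c
    by_cases q : x.1 ∈ V
    · exact .inl (p.symm.trans (if_pos q) ▸ q)
    exact .inr (.inr (.inl (p.symm.trans (if_neg q) ▸ s4 _ (x.2.resolve_left q)))))).to_subtype
  obtain ⟨y, hy⟩ := extend_function f inferInstance
  refine ⟨b ⁻¹' S, V, s2.preimage (by simp), v2, y, fun x p => (hy ⟨x, .inl p⟩).trans (if_pos p),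
    fun x p => (hy ⟨b x, .inr p⟩).trans ((if_neg fun q => v1 q (.inl p)).trans (by simp))⟩

theorem nch (hc : ℵ₁ < (𝔠 : Cardinal.{0})) : EB (Perm ℕ) := fun f hf => by
  obtain ⟨n, hn⟩ : ∃ n : ℕ, ∀ g, {x | (n : ℝ) < |f (g * x) - f x|}.Countable := by
    by_contra! c
    choose g hg using c
    obtain ⟨B, b, M, hM⟩ := hf _ ((countable_range g).insert 1)
    obtain ⟨k, hk⟩ := exists_nat_gt M
    exact hg k (b.mono fun x p => by_contra fun q => (hk.trans p).not_ge (by
      simpa using hM x q _ (.inr ⟨k, rfl⟩) 1 (.inl rfl)))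
  have av : ∀ {T : Set ℕ} (K : Set (Perm ℕ)) (D : Perm ℕ → Set (Perm ℕ)), Tᶜ.Infinite → #K ≤ ℵ₁ →
      (∀ x, (D x).Countable) → ∃ g ∈ Fix T, ∀ x ∈ K, g ∉ D x := fun K D a k d => by
    by_contra! c
    exact (hc.trans_le (big a)).not_ge ((mk_le_mk_of_subset fun g p => let ⟨x, q, r⟩ := c g p
      mem_biUnion q r).trans ((mk_biUnion_le D K).trans (mul_le_of_le (aleph0_le_aleph 1) k
        (ciSup_le' fun x => (le_aleph0_iff_set_countable.2 (d _)).trans (aleph0_le_aleph 1)))))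
  have uc : ∀ {K : Set (Perm ℕ)}, ¬ K.Countable → ∃ L ⊆ K, #L = ℵ₁ := fun c =>
    le_mk_iff_exists_subset.1 (not_lt.1 fun l => c (le_aleph0_iff_set_countable.1
      (lt_aleph_one_iff.1 l)))
  have ex : ∀ {K B : Set (Perm ℕ)}, ℵ₁ ≤ #K → B.Countable → ∃ x ∈ K, x ∉ B := fun k b =>
    not_subset.1 fun c => (aleph0_lt_aleph_one.trans_le k).not_ge
      (le_aleph0_iff_set_countable.2 (b.mono c))
  have H0 : ∀ T : Set ℕ, T.Infinite → ∀ b, ∀ K ⊆ Fix T, #K ≤ ℵ₁ →
      ∃ r, {y ∈ K | 2 * n < |f (y * b) - r|}.Countable := fun T a b K k l => by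
    obtain ⟨g, g1, g2⟩ := av (T := Tᶜ) K (fun y => (· * b) ⁻¹' _) (by simpa using a) l fun y =>
      (hn y).preimage (mul_left_injective b)
    refine ⟨f (g * b), ((hn g).preimage (mul_left_injective b)).mono fun y p => by_contra fun c => ?_⟩
    replace c : |f (g * (y * b)) - f (y * b)| ≤ n := not_lt.1 c
    have e : g * y = y * g := Perm.Disjoint.commute fun x => (em (x ∈ T)).symm.imp (g1 x) (k p.1 x)
    have : |f (y * (g * b)) - f (g * b)| ≤ n := not_lt.1 (g2 y p.1)
    rw [← mul_assoc, e, mul_assoc] at c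
    have := abs_sub_le (f (y * b)) (f (y * (g * b))) (f (g * b))
    linarith [abs_sub_comm (f (y * b)) (f (y * (g * b))), p.2]
  let Gd : Set ℕ → Perm ℕ → ℝ → Prop := fun T b r => {y ∈ Fix T | 6 * n < |f (y * b) - r|}.Countable
  have H : ∀ T : Set ℕ, T.Infinite → Tᶜ.Infinite → ∀ b, ∃ r, Gd T b r := fun T a a' b => by
    obtain ⟨K, k1, k2⟩ := le_mk_iff_exists_subset.1 (hc.le.trans (big a'))
    obtain ⟨r, hr⟩ := H0 T a b K k1 k2.le
    refine ⟨r, by_contra fun c => ?_⟩
    obtain ⟨L, l1, l2⟩ := uc c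
    obtain ⟨s, hs⟩ := H0 T a b (K ∪ L) (union_subset k1 fun y p => (l1 p).1) ((mk_union_le _ _).trans
      (by simp [k2, l2]))
    obtain ⟨x, x1, x2⟩ := ex k2.ge (hr.union hs)
    obtain ⟨y, y1, y2⟩ := ex l2.ge hs
    have := not_lt.1 fun c => x2 (.inl ⟨x1, c⟩)
    have := not_lt.1 fun c => x2 (.inr ⟨.inl x1, c⟩)
    have := not_lt.1 fun c => y2 ⟨.inr y1, c⟩
    have := (l1 y1).2
    simp only [abs_le, lt_abs] at *
    rcases this with _ | _ <;> linarith
  have U : ∀ T V b r s, Gd T b r → Gd V b s → (T ∪ V)ᶜ.Infinite → |r - s| ≤ 12 * n :=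
    fun T V b r s p q a => by
      obtain ⟨x, x1, x2⟩ := ex (hc.le.trans (big a)) (p.union q)
      have := not_lt.1 fun c => x2 (.inl ⟨fun y p => x1 y (.inl p), c⟩)
      have := not_lt.1 fun c => x2 (.inr ⟨fun y p => x1 y (.inr p), c⟩)
      simp only [abs_le] at *
      constructor <;> linarith
  have L : ∀ T y b r, y ∈ Fix T → Gd T b r → Gd T (y * b) r := fun T y b r p q =>
    (q.preimage (mul_left_injective y)).mono fun z c => And.intro (fun x d => by
      simp [p x d, c.1 x d]) (mul_assoc z y b ▸ c.2 :)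
  obtain ⟨T, -, t1, t2⟩ := sh (U := ∅) infinite_univ (by simpa using infinite_univ)
  rw [union_empty] at t2
  choose r hr using H T t1 t2
  have bd : ∀ b, |r b| ≤ |r 1| + 36 * n := fun b => by
    obtain ⟨A, B, a1, b1, y, y1, y2⟩ := dec b
    obtain ⟨A, a2, a3, a4⟩ := sh a1 t2
    obtain ⟨B, b2, b3, b4⟩ := sh b1 a4
    obtain ⟨s, hs⟩ := H A a3 (a4.mono (compl_subset_compl.2 subset_union_left)) 1
    obtain ⟨u, hu⟩ := H B b3 (b4.mono (compl_subset_compl.2 subset_union_left)) (y * b * 1)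
    have := U _ _ _ _ _ hs (hr 1) a4
    have := U _ _ _ _ _ hu (L _ _ _ _ (fun x p => y2 x (a2 p)) hs) (b4.mono (compl_subset_compl.2
      (union_subset_union_right _ subset_union_left)))
    have c := L _ y⁻¹ _ _ (fun x p => Perm.inv_eq_iff_eq.2 (y1 x (b2 p)).symm) hu
    rw [mul_one, inv_mul_cancel_left] at c
    have := U _ _ _ _ _ c (hr b) (b4.mono (compl_subset_compl.2
      (union_subset_union_right _ subset_union_right)))
    have := le_abs_self (r 1)
    have := neg_abs_le (r 1)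
    simp only [abs_le] at *
    constructor <;> linarith
  refine ⟨{x | |r 1| + 43 * n < |f x|}, by_contra fun c => ?_, _, fun x p => not_lt.1 p⟩
  obtain ⟨K, k1, k2⟩ := uc c
  obtain ⟨g, g1, g2⟩ := av K _ t2 k2.le hr
  obtain ⟨x, x1, x2⟩ := ex k2.ge (hn g)
  have := not_lt.1 fun c => g2 x x1 ⟨g1, c⟩
  have : |f (g * x) - f x| ≤ n := not_lt.1 x2
  have := bd x
  have : |r 1| + 43 * n < |f x| := k1 x1
  generalize |r 1| = R at *
  simp only [abs_le, lt_abs] at *
  rcases this with _ | _ <;> linarith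

end Pool.Agent.H.MP_c8ce56_lc
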